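import Pool.Agent.MWT.Stmts

/-! # Squad MWT, row CVC: the cover is exact -/

set_option autoImplicit false

namespace Pool.Agent.MWT.H73

open Pool.Agent.MWT Pool.Agent.Helper14_MV Pool.Agent.Helper2_MV Pool.Agent.MVD

lemma nl_append (a b : List ℕ) : nl (a ++ b) = nl a + nl b := by
  simp [nl, List.filter_append]

lemma nl_cons_le (a : ℕ) (b : List ℕ) : nl b ≤ nl (a :: b) := by
  unfold nl
  rw [List.filter_cons]
  split <;> simp

lemma nl_zero {l : List ℕ} (h : nl l = 0) : ∀ a ∈ l, a % 3 ≠ 1 := by
  intro a ha h1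
  have : a ∈ l.filter (fun a => decide (a % 3 = 1)) := by simp [ha, h1]
  unfold nl at h
  rw [List.length_eq_zero_iff] at h
  rw [h] at this
  simp at this

theorem cvc (hn : NlcStmt) (hc : CtbStmt) (hf : NlfStmt) : CvcStmt := by
  intro m R E B t φ α L1 X Y ω h e hT hC
  obtain ⟨ξ1, ξ2, hφ⟩ := List.append_of_mem hC.eh
  have hB : B 0 = (α ++ (L1.flatMap φ ++ ξ1)) ++ e :: ((ξ2 ++ (X.flatMap φ ++ ξ1)) ++
      e :: (ξ2 ++ (Y.flatMap φ ++ ω))) := by
    rw [hC.b0]
    simp only [List.flatMap_append, List.flatMap_cons, hφ, List.append_assoc, List.cons_append]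
  have hcount := hT.tw e hC.ee
  have hcount' := hcount
  rw [hB] at hcount'
  simp only [List.count_append, List.count_cons_self] at hcount'
  have hz : ∀ l : List ℕ, l.count e = 0 → e ∉ l := fun l hl => List.count_eq_zero.1 hl
  have n1 : e ∉ α ++ (L1.flatMap φ ++ ξ1) := by
    apply hz; simp only [List.count_append]; omega
  have n2 : e ∉ ξ2 ++ (X.flatMap φ ++ ξ1) := by
    apply hz; simp only [List.count_append]; omega
  have n3 : e ∉ ξ2 ++ (Y.flatMap φ ++ ω) := by
    apply hz; simp only [List.count_append]; omega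
  have hh : h ∈ L1 ++ h :: (X ++ h :: Y) := by simp
  have hnh : nl (φ h) = 0 := hC.c0 h hh hC.h0
  have hn12 : nl ξ1 = 0 ∧ nl ξ2 = 0 := by
    rw [hφ, nl_append] at hnh
    have := nl_cons_le e ξ2
    omega
  -- the light letters of X
  have hX : ∀ s ∈ X, s ∈ L1 ++ h :: (X ++ h :: Y) := by
    intro s hs; simp [hs]
  have hNX := hf φ X (fun s hs => hC.c2 s (hX s hs)) (fun s hs h0 => hC.c0 s (hX s hs) h0)
    (fun s hs h1 => (hC.c1 s (hX s hs) h1).1)
  set U := ξ2 ++ (X.flatMap φ ++ ξ1) with hU
  have hnU : nl U = nl (X.flatMap φ) := by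
    rw [hU, nl_append, nl_append]; omega
  have hUB : ∀ a ∈ U, a ∈ B 0 := by
    intro a ha
    rw [hB]
    simp only [List.mem_append, List.mem_cons]
    right; right; left
    simpa using ha
  have hBw : ∀ a ∈ B 0, a ∈ Bw R B ++ t := by
    intro a ha
    rw [List.mem_append]
    left
    unfold Bw
    rw [List.mem_flatMap]
    exact ⟨0, hT.z, by simp [ha]⟩
  have hU1 : ∀ a ∈ U, a % 3 = 1 → ∃ b < 7 * m, a = 3 * b + 1 := fun a ha h1 =>
    hT.cn a (hBw a (hUB a ha)) h1
  have hU2 : ∀ b < 7 * m, U.count (3 * b + 1) ≤ 1 := by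
    intro b hb
    have h1 := hT.li b hb 0 hT.z
    simp only [true_or, if_true] at h1
    rw [hB] at h1
    rw [List.count_append, List.count_cons, List.count_append (l₁ := U)] at h1
    omega
  have hlen := hn m U hU1 hU2
  have hown : ∀ b < 7 * m, own e (b % 7) → 3 * b + 1 ∈ U := fun b hb ho =>
    hT.ow e hC.ee _ U _ hB b hb ho
  have hth := hT.th e hC.ee
  have h4 := (hc m e e hth hth).1
  -- the filtered lists
  have hsub : ((List.range (7 * m)).filter (fun b => decide (own e (b % 7)))).Sublist
      ((List.range (7 * m)).filter (fun b => decide (3 * b + 1 ∈ U))) := by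
    have e1 : (List.range (7 * m)).filter (fun b => decide (own e (b % 7))) =
        ((List.range (7 * m)).filter (fun b => decide (3 * b + 1 ∈ U))).filter
          (fun b => decide (own e (b % 7))) := by
      rw [List.filter_filter]
      apply List.filter_congr
      intro b hb
      have hb' := List.mem_range.1 hb
      by_cases ho : own e (b % 7)
      · simp [ho, hown b hb' ho]
      · simp [ho]
    rw [e1]
    exact List.filter_sublist
  have hle := hsub.length_le
  rw [h4, ← hlen, hnU] at hle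
  have hnx := hC.nx
  have heq : nl (X.flatMap φ) = 4 * m := by omega
  have heq2 := hsub.eq_of_length (by rw [h4, ← hlen, hnU, heq])
  refine ⟨ξ1, ξ2, hφ, hn12.1, hn12.2, hB, n1, n2, n3, hNX.2 (by omega), heq, ?_⟩
  intro b hb
  have hUX : 3 * b + 1 ∈ U ↔ 3 * b + 1 ∈ X.flatMap φ := by
    rw [hU, List.mem_append, List.mem_append]
    constructor
    · rintro (h1 | h1 | h1)
      · exact absurd (by omega) (nl_zero hn12.2 _ h1)
      · exact h1
      · exact absurd (by omega) (nl_zero hn12.1 _ h1)
    · intro h1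
      exact Or.inr (Or.inl h1)
  rw [← hUX]
  constructor
  · intro h1
    have : b ∈ (List.range (7 * m)).filter (fun b => decide (3 * b + 1 ∈ U)) := by
      simp [hb, h1]
    rw [← heq2] at this
    have h2 := (List.mem_filter.1 this).2
    simpa using h2
  · intro h1
    exact hown b hb h1

end Pool.Agent.MWT.H73
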